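import Pool.Agent.Q95.GN.SelA

/-!
Project GN (helper155), job GN-SEL: the upper bound for the Selmer groups of the curves
`y² = x³ + D x` and `y² = x³ - D² x` over `ℚ(i)`, second part: the statement `S_SEL`.
-/

set_option autoImplicit false
set_option linter.unusedSectionVars false

open NumberField IsDedekindDomain

namespace Pool.Agent.Q95.GN

open Pool.Agent.Y682 (S1 S2 vv vv_coe IsT MP Zc Zc_card Zc_lower LL1 LL2 Sq quot_eq)
open Pool.Agent.Y699
open Pool.Agent.Y715.Z
open H385 (ZI RQ im1 nrm)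
open Pool.Agent.W164.RC (two2 prim_iff_dvd unit_norm unit_cases)
open Q155.GN

/-! ### The combinatorial end of the descent -/

section comb

variable {S : Finset ZI}

/-- the family of the elements of `S` -/
def fm (S : Finset ZI) : {π : ZI // π ∈ S} → ZI := fun i => i.1

lemma fm_PF (hS : ∀ π ∈ S, PP π) : PF (fm S) where
  pp := fun i => hS i.1 i.2
  inj := Subtype.val_injective

lemma wt_fc (i : {π : ZI // π ∈ S}) :
    wt (fm S) i = ZMod.castHom (show 2 ∣ 4 by norm_num) (ZMod 2) (fc i.1) := by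
  have h : (nrm i.1 : ℤ) = (fm S i).norm := by
    show (((i.1 : ZI).norm.natAbs : ℕ) : ℤ) = (i.1 : ZI).norm
    exact Int.natAbs_of_nonneg (GaussianInt.norm_nonneg _)
  unfold wt fc
  rw [← h]
  by_cases h5 : nrm i.1 % 16 = 5
  · rw [if_pos h5, if_pos (by omega)]
    decide
  · rw [if_neg h5]
    by_cases h9 : nrm i.1 % 16 = 9
    · rw [if_pos h9, if_neg (by omega)]
      decide
    · rw [if_neg h9]
      by_cases h13 : nrm i.1 % 16 = 13
      · rw [if_pos h13, if_pos (by omega)]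
        decide
      · rw [if_neg h13, if_neg (by omega)]
        decide

lemma wt_od (hO : Od S) : ∑ i, wt (fm S) i = 1 := by
  have h1 : ∑ i, wt (fm S) i = ZMod.castHom (show 2 ∣ 4 by norm_num) (ZMod 2) (∑ π ∈ S, fc π) := by
    rw [map_sum, ← Finset.sum_coe_sort S]
    exact Finset.sum_congr rfl fun i _ => wt_fc i
  rw [h1]
  rcases hO with h | h <;> rw [h] <;> decide

/-- the unit is a square and the indicator is in the kernel -/
theorem ends1 [DecidableEq {π : ZI // π ∈ S}] (hS : ∀ π ∈ S, PP π) (hO : Od S) {u : ZI}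
    (hu : u.norm = 1) (A : Finset {π : ZI // π ∈ S})
    (hloc0 : ∀ j, (j ∉ A → qr (fm S j) u * qr (fm S j) (DD (fm S) A) = 1) ∧
      (j ∈ A → qr (fm S j) u * qr (fm S j) (DD (fm S) (Finset.univ \ A)) = 1)) :
    (∃ u0 : ZI, u = u0 ^ 2) ∧ ∀ v, ∑ i, em (fm S) i v *
      ((if i ∈ A then (1 : ZMod 2) else 0) + (if v ∈ A then 1 else 0)) = 0 := by
  have hp := fm_PF hS
  have hw := wt_od hO
  have hSV : A ⊆ (Finset.univ : Finset {π : ZI // π ∈ S}) := Finset.subset_univ _
  set z : {π : ZI // π ∈ S} → ZMod 2 := fun i => if i ∈ A then 1 else 0 with hz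
  have hloc : ∀ v, ∑ i, em (fm S) i v * (z i + z v) = ue u * wt (fm S) v := by
    intro v
    obtain ⟨h1, h2⟩ := hloc0 v
    have hsum : ∀ a b : ZMod 2, a + b = 0 → b = a := by decide
    by_cases hvS : v ∈ A
    · have h3 := h2 hvS
      rw [qr_unit_sg hp v hu, qr_DD_sg hp (Finset.univ \ A)
        (fun h => (Finset.mem_sdiff.1 h).2 hvS), ← sg_add] at h3
      have h4 := hsum _ _ (sg_eq_one h3)
      rw [← h4, ← Finset.sum_sdiff hSV]
      have h5 : ∑ i ∈ A, em (fm S) i v * (z i + z v) = 0 := by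
        refine Finset.sum_eq_zero fun i hi => ?_
        rw [hz]
        simp only [if_pos hi, if_pos hvS]
        have : (1 : ZMod 2) + 1 = 0 := by decide
        rw [this, mul_zero]
      rw [h5, add_zero]
      refine Finset.sum_congr rfl fun i hi => ?_
      rw [hz]
      simp only [if_neg (Finset.mem_sdiff.1 hi).2, if_pos hvS, zero_add, mul_one]
    · have h3 := h1 hvS
      rw [qr_unit_sg hp v hu, qr_DD_sg hp A hvS, ← sg_add] at h3
      have h4 := hsum _ _ (sg_eq_one h3)
      rw [← h4, ← Finset.sum_sdiff hSV]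
      have h5 : ∑ i ∈ Finset.univ \ A, em (fm S) i v * (z i + z v) = 0 := by
        refine Finset.sum_eq_zero fun i hi => ?_
        rw [hz]
        simp only [if_neg (Finset.mem_sdiff.1 hi).2, if_neg hvS, zero_add, mul_zero]
      rw [h5, zero_add]
      refine Finset.sum_congr rfl fun i hi => ?_
      rw [hz]
      simp only [if_pos hi, if_neg hvS, add_zero, mul_one]
  have hue : ue u = 0 := by
    have h1 : ∑ v, ∑ i, em (fm S) i v * (z i + z v) = ue u := by
      rw [Finset.sum_congr rfl fun v _ => hloc v, ← Finset.mul_sum, hw, mul_one]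
    rw [← h1]
    have h2 : ∑ v, ∑ i, em (fm S) i v * (z i + z v) =
        ∑ v, ∑ i, em (fm S) i v * z i + ∑ v, ∑ i, em (fm S) i v * z v := by
      rw [← Finset.sum_add_distrib]
      refine Finset.sum_congr rfl fun v _ => ?_
      rw [← Finset.sum_add_distrib]
      refine Finset.sum_congr rfl fun i _ => by ring
    rw [h2]
    have h3 : ∑ v, ∑ i, em (fm S) i v * z v = ∑ v, ∑ i, em (fm S) i v * z i := by
      rw [Finset.sum_comm]
      refine Finset.sum_congr rfl fun v _ => Finset.sum_congr rfl fun i _ => by rw [em_symm hp]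
    rw [h3]
    have : ∀ a : ZMod 2, a + a = 0 := by decide
    exact this _
  refine ⟨?_, fun v => by rw [hloc v, hue, zero_mul]⟩
  rcases unit_cases hu with h | h | h | h
  · exact ⟨1, by rw [h]; ring⟩
  · exfalso
    rw [h] at hue
    revert hue
    unfold ue
    rw [if_neg (by decide)]
    decide
  · exact ⟨im1, h⟩
  · exfalso
    rw [h] at hue
    revert hue
    unfold ue
    rw [if_neg (by decide)]
    decide

lemma sqf_prod (hS : ∀ π ∈ S, PP π) : Squarefree (∏ π ∈ S, π) := by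
  apply Finset.squarefree_prod_of_pairwise_isCoprime
  · intro π hπ ρ hρ hne
    exact ((hS π hπ).cop (hS ρ hρ) hne).isRelPrime
  · intro π hπ
    exact (hS π hπ).pr.squarefree

end comb

section

variable {K : Type} [Field K] [NumberField K] (e : ZI ≃+* 𝓞 K)

open scoped Classical in
/-- **the Selmer groups** -/
theorem selG {S : Finset ZI} (hS : ∀ π ∈ S, PP π) (hO : Od S) {B : K}
    (hB : B = em0 e (∏ π ∈ S, π) ∨ B = -(em0 e (∏ π ∈ S, π)) ^ 2) {b : K} (hb : b ≠ 0)
    (h : ∀ v : HeightOneSpectrum (𝓞 K), ∃ y m : v.adicCompletion K, y ≠ 0 ∧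
      algebraMap K (v.adicCompletion K) b * y ^ 2 = m ∧
        S1 0 (algebraMap K (v.adicCompletion K) B) m) :
    ∃ x ∈ Kl S, ∃ c : K, b = em0 e (∏ π ∈ S with x π = 1, π) * c ^ 2 := by
  obtain ⟨D, hDdef⟩ : ∃ D, D = ∏ π ∈ S, π := ⟨_, rfl⟩
  rw [← hDdef] at hB
  obtain ⟨d, w, hd, hw, hbd⟩ := exists_sqf e hb
  have hDsq : Squarefree D := by rw [hDdef]; exact sqf_prod hS
  have hD0 : D ≠ 0 := hDsq.ne_zero
  have hp := fm_PF hS
  -- the primes of `d`
  have hprime : ∀ ρ : ZI, Prime ρ → ρ ∣ d → ρ ∣ D := by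
    intro ρ hρ hρd
    by_contra hρD
    refine not_dvd_of_locG e hρ hd hw ?_ hbd (h (plc e hρ)) hρd
    rcases hB with rfl | rfl
    · exact val_one e hρ hρD
    · rw [Valuation.map_neg, map_pow, val_one e hρ hρD, one_pow]
  set A : Finset {π : ZI // π ∈ S} := Finset.univ.filter (fun i => fm S i ∣ d) with hA
  have hSV : A ⊆ Finset.univ := Finset.subset_univ _
  have hDV : DD (fm S) Finset.univ = D := by
    rw [hDdef]
    unfold DD
    exact Finset.prod_coe_sort S (fun π => π)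
  have hSd : DD (fm S) A ∣ d := by
    unfold DD
    refine Finset.prod_dvd_of_coprime ?_ ?_
    · intro i _ j _ hij
      exact (hp.pp i).cop (hp.pp j) fun h => hij (hp.inj h)
    · intro i hi
      exact (Finset.mem_filter.1 hi).2
  obtain ⟨u, hu⟩ := hSd
  have huu : IsUnit u := by
    by_contra hnu
    have hu0 : u ≠ 0 := by
      rintro rfl
      exact hd.ne_zero (by rw [hu, mul_zero])
    obtain ⟨ρ, hρ, hρu⟩ := WfDvdMonoid.exists_irreducible_factor hnu hu0
    have hρ' : Prime ρ := irreducible_iff_prime.1 hρ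
    have h1 : ρ ∣ d := by rw [hu]; exact hρu.mul_left _
    have h2 := hprime ρ hρ' h1
    rw [← hDV] at h2
    unfold DD at h2
    obtain ⟨i, hi, hρi⟩ := (hρ'.dvd_finsetProd_iff _).1 h2
    have h3 : fm S i ∣ ρ := by
      obtain ⟨c, hc⟩ := hρi
      rcases (hp.pp i).pr.irreducible.isUnit_or_isUnit hc with h4 | h4
      · exact absurd h4 hρ'.not_isUnit
      · obtain ⟨c', hc'⟩ := h4.exists_right_inv
        exact ⟨c', by rw [hc, mul_assoc, hc', mul_one]⟩
    have h4 : i ∈ A := Finset.mem_filter.2 ⟨hi, h3.trans h1⟩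
    have h5 : fm S i * fm S i ∣ d := by
      rw [hu]
      refine mul_dvd_mul ?_ (h3.trans hρu)
      unfold DD
      exact Finset.dvd_prod_of_mem _ h4
    exact (hp.pp i).pr.not_isUnit (hd _ h5)
  have hun : u.norm = 1 := by
    obtain ⟨e', rfl⟩ := huu
    exact unit_norm e'
  have hDS : DD (fm S) Finset.univ = DD (fm S) A * DD (fm S) (Finset.univ \ A) := by
    unfold DD
    rw [mul_comm]
    exact (Finset.prod_sdiff hSV).symm
  have hnd : ∀ (T : Finset {π : ZI // π ∈ S}) (j : {π : ZI // π ∈ S}), j ∉ T →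
      ¬ fm S j ∣ DD (fm S) T := by
    intro T j hT h
    unfold DD at h
    obtain ⟨i, hi, hji⟩ := ((hp.pp j).pr.dvd_finsetProd_iff _).1 h
    exact not_dvd_of_ne hp (fun h' => hT (by rw [h']; exact hi)) hji
  -- the local conditions
  have hloc : ∀ j, (j ∉ A → qr (fm S j) u * qr (fm S j) (DD (fm S) A) = 1) ∧
      (j ∈ A → qr (fm S j) u * qr (fm S j) (DD (fm S) (Finset.univ \ A)) = 1) := by
    intro j
    have hP := hp.pp j
    have hjD : fm S j ∣ D :=
      (Finset.dvd_prod_of_mem (fm S) (Finset.mem_univ j)).trans (dvd_of_eq hDV)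
    obtain ⟨h1, h2⟩ := loc_badG (d := d) (d' := u * DD (fm S) (Finset.univ \ A)) (D' := u) e
      hP.pr hP hDsq hjD hB hw hbd (h (plc e hP.pr))
    constructor
    · intro hjS
      have h3 := h1 (fun h' => hjS (Finset.mem_filter.2 ⟨Finset.mem_univ j, h'⟩))
      rw [hu, qr_mul hP] at h3
      rw [mul_comm]
      exact h3
    · intro hjS
      have h3 := h2 hd (Finset.mem_filter.1 hjS).2 (by
        have h5 : D = DD (fm S) A * DD (fm S) (Finset.univ \ A) := hDV.symm.trans hDS
        have h6 : d * (u * DD (fm S) (Finset.univ \ A)) =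
            (DD (fm S) A * DD (fm S) (Finset.univ \ A)) * u ^ 2 := by rw [hu]; ring
        exact h6.trans (congrArg (fun t => t * u ^ 2) h5.symm)) (by
        intro h'
        rcases hP.pr.dvd_or_dvd h' with h4 | h4
        · exact not_dvd_unit hP hun h4
        · exact hnd _ _ (fun h5 => (Finset.mem_sdiff.1 h5).2 hjS) h4)
      rw [qr_mul hP] at h3
      exact h3
  obtain ⟨⟨u0, hu0⟩, hker⟩ := ends1 hS hO hun A hloc
  -- the indicator
  let x : ZI → ZMod 2 := fun π => if π ∈ S ∧ π ∣ d then 1 else 0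
  have hxi : ∀ i : {π : ZI // π ∈ S}, x i.1 = if i ∈ A then 1 else 0 := by
    intro i
    show (if i.1 ∈ S ∧ i.1 ∣ d then (1 : ZMod 2) else 0) = _
    by_cases hi : i ∈ A
    · rw [if_pos hi, if_pos ⟨i.2, (Finset.mem_filter.1 hi).2⟩]
    · rw [if_neg hi, if_neg]
      rintro ⟨-, h2⟩
      exact hi (Finset.mem_filter.2 ⟨Finset.mem_univ i, h2⟩)
  have hx : x ∈ Kl S := by
    rw [mem_Kl]
    constructor
    · intro π hπ
      exact if_neg fun h => hπ h.1
    · intro π hπ
      have h1 := hker ⟨π, hπ⟩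
      rw [← Finset.sum_coe_sort S, ← h1]
      refine Finset.sum_congr rfl fun i _ => ?_
      rw [hxi i, hxi ⟨π, hπ⟩]
      rfl
  refine ⟨x, hx, em0 e u0 * w, ?_⟩
  have hprod : ∏ π ∈ S with x π = 1, π = DD (fm S) A := by
    unfold DD
    rw [hA, Finset.prod_filter, Finset.prod_filter, ← Finset.prod_coe_sort S]
    refine Finset.prod_congr rfl fun i _ => ?_
    rw [hxi i]
    by_cases hi : fm S i ∣ d
    · have hi' : i ∈ A := Finset.mem_filter.2 ⟨Finset.mem_univ i, hi⟩
      rw [if_pos hi', if_pos rfl, if_pos hi]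
      rfl
    · have hi' : i ∉ A := fun h => hi (Finset.mem_filter.1 h).2
      rw [if_neg hi', if_neg hi, if_neg (by decide)]
  rw [hprod, hbd, hu, hu0, map_mul, map_pow]
  ring

/-! ### The dimension of the kernel -/

lemma fin_Kl (S : Finset ZI) : Finite (Kl S) := by
  classical
  apply Finite.of_injective (fun (x : Kl S) (i : {π : ZI // π ∈ S}) => x.1 i.1)
  intro x y hxy
  apply Subtype.ext
  funext π
  by_cases hπ : π ∈ S
  · exact congrFun hxy ⟨π, hπ⟩
  · rw [(mem_Kl.1 x.2).1 π hπ, (mem_Kl.1 y.2).1 π hπ]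

lemma card_Kl {S : Finset ZI} (hS : S.Nonempty) : Nat.card (Kl S) = 2 ^ (bb S + 1) := by
  classical
  have := fin_Kl S
  have hfin : Module.Finite (ZMod 2) (Kl S) := Module.Finite.of_finite
  have h1 : Nat.card (Kl S) = Nat.card (ZMod 2) ^ Module.finrank (ZMod 2) (Kl S) :=
    Module.natCard_eq_pow_finrank
  have h2 : 0 < Module.finrank (ZMod 2) (Kl S) := by
    have hc : (fun π => if π ∈ S then (1 : ZMod 2) else 0) ∈ Kl S := by
      rw [mem_Kl]
      refine ⟨fun π hπ => if_neg hπ, fun π hπ => ?_⟩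
      refine Finset.sum_eq_zero fun ρ hρ => ?_
      have : (1 : ZMod 2) + 1 = 0 := by decide
      simp only [if_pos hπ, if_pos hρ, this, mul_zero]
    have hnt : Nontrivial (Kl S) := by
      refine ⟨⟨⟨_, hc⟩, 0, fun h0 => ?_⟩⟩
      obtain ⟨π, hπ⟩ := hS
      have h3 : (if π ∈ S then (1 : ZMod 2) else 0) = 0 := congrFun (congrArg Subtype.val h0) π
      rw [if_pos hπ] at h3
      exact one_ne_zero h3
    exact Module.finrank_pos
  rw [h1, Nat.card_zmod]
  unfold bb
  congr 1
  omega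

open scoped Classical in
theorem sel : S_SEL := by
  intro _ S hS hO K _ _ e W hW
  have hne : S.Nonempty := by
    rw [Finset.nonempty_iff_ne_empty]
    rintro rfl
    rcases hO with h | h
    · rw [Finset.sum_empty] at h
      exact absurd h (by decide)
    · rw [Finset.sum_empty] at h
      exact absurd h (by decide)
  obtain ⟨B, hBT, hB⟩ : ∃ B : K, IsT W 0 B ∧
      (B = em0 e (∏ π ∈ S, π) ∨ B = -(em0 e (∏ π ∈ S, π)) ^ 2) := by
    rcases hW with h | h
    · exact ⟨_, h, Or.inl rfl⟩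
    · exact ⟨_, h, Or.inr rfl⟩
  have hne0 : ∀ x : Kl S, em0 e (∏ π ∈ S with x.1 π = 1, π) ≠ 0 := fun x =>
    em0_ne e (Finset.prod_ne_zero_iff.2 fun π hπ => (hS π (Finset.mem_filter.1 hπ).1).ne)
  let g : Kl S → (Kˣ ⧸ Sq K) := fun x => ((Units.mk0 _ (hne0 x) : Kˣ) : Kˣ ⧸ Sq K)
  have hfK := fin_Kl S
  have hfin : Finite (Set.range g) := Set.finite_range g
  have hU2 : Nat.card (Set.range g) ≤ 2 ^ (bb S + 1) := by
    rw [← card_Kl hne]
    exact Finite.card_range_le g
  have key : ∀ b : Kˣ, (∃ x ∈ Kl S, ∃ c : K, (b : K) = em0 e (∏ π ∈ S with x π = 1, π) * c ^ 2) →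
      (b : Kˣ ⧸ Sq K) ∈ Set.range g := by
    rintro b ⟨x, hx, c, hc⟩
    have hc0 : c ≠ 0 := by
      rintro rfl
      rw [zero_pow two_ne_zero, mul_zero] at hc
      exact b.ne_zero hc
    refine ⟨⟨x, hx⟩, ?_⟩
    show ((Units.mk0 _ (hne0 ⟨x, hx⟩) : Kˣ) : Kˣ ⧸ Sq K) = (b : Kˣ ⧸ Sq K)
    rw [quot_eq]
    refine ⟨Units.mk0 c hc0, Units.ext ?_⟩
    rw [Units.val_mul, Units.val_pow_eq_pow_val, Units.val_mk0, Units.val_mk0, hc]
  have H1 : ∀ b : Kˣ, LL1 (0 : K) B (b : K) → (b : Kˣ ⧸ Sq K) ∈ Set.range g := by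
    intro b hb
    apply key
    apply selG e hS hO hB b.ne_zero
    intro v
    have := hb.1 v
    rwa [map_zero] at this
  have H2 : ∀ b : Kˣ, LL2 (0 : K) B (b : K) → (b : Kˣ ⧸ Sq K) ∈ Set.range g := by
    intro b hb
    apply key
    apply selG e hS hO hB b.ne_zero
    intro v
    have := Pool.Agent.Y682.charZero_adic v
    have h1 := hb.1 v
    rw [map_zero] at h1
    refine S2_S1 (i := algebraMap K (v.adicCompletion K) (em0 e im1)) ?_ h1
    rw [← map_pow, Pool.Agent.Y715.Z.im1_sq e, map_neg, map_one]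
  have hone : (1 : Kˣ ⧸ Sq K) ∈ Set.range g := by
    have h1 : (1 : Kˣ ⧸ Sq K) = ((1 : Kˣ) : Kˣ ⧸ Sq K) := rfl
    rw [h1]
    apply key
    refine ⟨0, (Kl S).zero_mem, 1, ?_⟩
    have h2 : ∏ π ∈ S with (0 : ZI → ZMod 2) π = 1, π = 1 := by
      rw [Finset.filter_false_of_mem, Finset.prod_empty]
      intro π _
      show ¬ (0 : ZMod 2) = 1
      decide
    rw [h2, map_one, one_pow, mul_one, Units.val_one]
  obtain ⟨hf, hc⟩ := Zc_card hBT (U := Set.range g) (V := Set.range g) hone H1 H2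
  obtain ⟨h3, h4⟩ := Zc_lower hBT
  refine ⟨h3, ?_⟩
  have h5 : Nat.card (Zc W) ≤ 4 * 4 ^ bb S := by
    refine hc.trans ((Nat.mul_le_mul hU2 hU2).trans (le_of_eq ?_))
    rw [← pow_add, show (4 : ℕ) = 2 ^ 2 by norm_num, ← pow_mul, ← pow_add]
    congr 1
    ring
  have h6 := h4.trans h5
  rw [mul_assoc] at h6
  exact Nat.le_of_mul_le_mul_left h6 (by norm_num)

end

end Pool.Agent.Q95.GN
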