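import Pool.Agent.Q155.GN.Stm3

/-!
Project GN (helper155), job GN-SEL: the upper bound for the Selmer groups of the curves
`y² = x³ + D x` and `y² = x³ - D² x` over `ℚ(i)` (port of `Pool/Agent/Y715/Z`).
-/

set_option autoImplicit false
set_option linter.unusedSectionVars false

open NumberField IsDedekindDomain

namespace Pool.Agent.Q95.GN

open Pool.Agent.Y682 (S1 S2 vv vv_coe IsT MP Zc Zc_card Zc_lower LL1 LL2 Sq quot_eq)
open Pool.Agent.Y699
open Pool.Agent.Y715.Z
open H385 (ZI RQ im1 nrm)
open Pool.Agent.W164.RC (two2 prim_iff_dvd unit_norm unit_cases)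
open Q155.GN

/-! ### The local images -/

section

variable {L : Type} [Field L] (w : Valuation L (WithZero (Multiplicative ℤ)))

/-- the local image of `y² = x³ - D² x` at a prime dividing `D` exactly once -/
lemma cls2 (hens : ∀ t : L, w t < 1 → ∃ y : L, y ^ 2 = 1 + t) {D m i : L} (hi : i ^ 2 = -1)
    (hD0 : D ≠ 0) (hD : w D < 1) (hun : ∀ x : L, w x < 1 → w x ≤ w D) (hsq : ∀ g, g ^ 2 ≠ w D)
    (h : S1 0 (-D ^ 2) m) : ∃ c : L, c ≠ 0 ∧ (m = c ^ 2 ∨ m = D * c ^ 2) := by
  have hi0 : i ≠ 0 := by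
    rintro rfl
    rw [zero_pow two_ne_zero] at hi
    have : (1 : L) = 0 := by linear_combination hi
    exact one_ne_zero this
  rcases h with h | h | ⟨hm, y, hy⟩
  · exact ⟨1, one_ne_zero, Or.inl (by rw [h, one_pow])⟩
  · exact ⟨i * D, mul_ne_zero hi0 hD0, Or.inl (by rw [h, mul_pow, hi]; ring)⟩
  · have hwm : w m ≠ 0 := (Valuation.ne_zero_iff _).2 hm
    have hwD : w D ≠ 0 := (Valuation.ne_zero_iff _).2 hD0
    rw [zero_mul, add_zero] at hy
    -- a factor which is a square
    have hfac : ∀ q : L, q ≠ 0 → m ^ 2 + -D ^ 2 = q ^ 2 → ∃ c : L, c ≠ 0 ∧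
        (m = c ^ 2 ∨ m = D * c ^ 2) := by
      intro q hq hq2
      rw [hq2] at hy
      have hy0 : y ≠ 0 := by
        rintro rfl
        rw [zero_pow two_ne_zero] at hy
        exact mul_ne_zero hm (pow_ne_zero 2 hq) hy.symm
      refine ⟨y / q, div_ne_zero hy0 hq, Or.inl ?_⟩
      rw [div_pow, hy]
      field_simp
    rcases le_or_gt 1 (w m) with h1 | h1
    · have ht : w (-D ^ 2 / m ^ 2) < 1 := by
        rw [map_div₀, Valuation.map_neg, map_pow, map_pow]
        rw [div_lt_iff₀ (pow_pos (zero_lt_iff.2 hwm) 2), one_mul]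
        exact lt_of_lt_of_le (pow_lt_one₀ zero_le hD two_ne_zero) (one_le_pow₀ h1)
      obtain ⟨r, hr⟩ := hens _ ht
      have hr0 : r ≠ 0 := by
        rintro rfl
        have h2 : -D ^ 2 / m ^ 2 = -1 := by linear_combination -hr
        rw [h2, Valuation.map_neg, map_one] at ht
        exact lt_irrefl _ ht
      apply hfac (m * r) (mul_ne_zero hm hr0)
      rw [mul_pow, hr]
      field_simp
    · rcases lt_or_eq_of_le (hun m h1) with h3 | h3
      · have ht : w (-(m ^ 2 / D ^ 2)) < 1 := by
          rw [Valuation.map_neg, map_div₀, map_pow, map_pow,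
            div_lt_iff₀ (pow_pos (zero_lt_iff.2 hwD) 2), one_mul]
          exact pow_lt_pow_left₀ h3 zero_le two_ne_zero
        obtain ⟨r, hr⟩ := hens _ ht
        have hr0 : r ≠ 0 := by
          rintro rfl
          have h2 : -(m ^ 2 / D ^ 2) = -1 := by linear_combination -hr
          rw [h2, Valuation.map_neg, map_one] at ht
          exact lt_irrefl _ ht
        apply hfac (i * D * r) (mul_ne_zero (mul_ne_zero hi0 hD0) hr0)
        rw [mul_pow, mul_pow, hi, hr]
        field_simp
        ring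
      · -- `m = D u`
        obtain ⟨u, hu⟩ : ∃ u, u = m / D := ⟨_, rfl⟩
        have hmu : m = D * u := by rw [hu]; field_simp
        have hwu : w u = 1 := by rw [hu, map_div₀, h3, div_self hwD]
        have hu0 : u ≠ 0 := by rw [hu]; exact div_ne_zero hm hD0
        by_cases h4 : w (u - 1) < 1
        · obtain ⟨r, hr⟩ := hens _ h4
          have hr' : r ^ 2 = u := by rw [hr]; ring
          refine ⟨r, ?_, Or.inr (by rw [hmu, hr'])⟩
          rintro rfl
          rw [zero_pow two_ne_zero] at hr'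
          exact hu0 hr'.symm
        · by_cases h5 : w (u + 1) < 1
          · have h6 : w (-(u + 1)) < 1 := by rwa [Valuation.map_neg]
            obtain ⟨r, hr⟩ := hens _ h6
            have hr' : (i * r) ^ 2 = u := by rw [mul_pow, hr, hi]; ring
            refine ⟨i * r, ?_, Or.inr (by rw [hmu, hr'])⟩
            intro h0
            rw [h0, zero_pow two_ne_zero] at hr'
            exact hu0 hr'.symm
          · exfalso
            have h7 : w (u - 1) = 1 := by
              refine le_antisymm ?_ (not_lt.1 h4)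
              refine (Valuation.map_sub _ _ _).trans ?_
              rw [hwu, map_one, max_self]
            have h8 : w (u + 1) = 1 := by
              refine le_antisymm ?_ (not_lt.1 h5)
              refine (Valuation.map_add _ _ _).trans ?_
              rw [hwu, map_one, max_self]
            have h9 : y ^ 2 = D ^ 3 * (u * ((u - 1) * (u + 1))) := by
              rw [hy, hmu]
              ring
            have h10 := congrArg w h9
            rw [map_pow, map_mul, map_mul, map_mul, h7, h8, hwu, one_mul, one_mul, mul_one,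
              map_pow] at h10
            apply hsq (w y / w D)
            rw [div_pow, h10]
            field_simp

end

section

variable {K : Type} [Field K] [NumberField K] (e : ZI ≃+* 𝓞 K) {z : ZI} (hz : Prime z)

/-- evenness outside of `D` -/
lemma not_dvd_of_locG {d : ZI} (hd : Squarefree d) {B b w : K} (hw : w ≠ 0)
    (hB : (plc e hz).valuation K B = 1) (hb : b = em0 e d * w ^ 2)
    (h : ∃ y m : (plc e hz).adicCompletion K, y ≠ 0 ∧ ph e hz b * y ^ 2 = m ∧
      S1 0 (ph e hz B) m) : ¬ z ∣ d := by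
  intro hzd
  obtain ⟨y, m, hy, hym, hm⟩ := h
  have hwD : vv (plc e hz) (ph e hz B) = 1 := by rw [vv_coe, hB]
  obtain ⟨g, hg⟩ := even1 _ hwD hm
  have hvy : vv (plc e hz) y ≠ 0 := (Valuation.ne_zero_iff _).2 hy
  have hvw : (plc e hz).valuation K w ≠ 0 := (Valuation.ne_zero_iff _).2 hw
  rw [← hym, map_mul, vv_coe, map_pow, hb, map_mul, val_sqf e hz hd hzd, map_pow] at hg
  apply exp_sq (g := g / ((plc e hz).valuation K w * vv (plc e hz) y))
  rw [div_pow, ← hg, mul_pow]
  field_simp

/-- the local image at a prime dividing `D`, for both curves -/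
lemma cls_bad (hP : PP z) {D : ZI} (hDsq : Squarefree D) (hzD : z ∣ D) {B : K}
    (hB : B = em0 e D ∨ B = -(em0 e D) ^ 2) {m : (plc e hz).adicCompletion K}
    (hm : S1 0 (ph e hz B) m) : ∃ c : (plc e hz).adicCompletion K, c ≠ 0 ∧
      (m = c ^ 2 ∨ m = ph e hz (em0 e D) * c ^ 2) := by
  have hD0 : D ≠ 0 := hDsq.ne_zero
  have h2' : (plc e hz).valuation K 2 = 1 := by
    have := val_one e hz (not_dvd_two hP)
    rwa [map_ofNat] at this
  have hwD : vv (plc e hz) (ph e hz (em0 e D)) = WithZero.exp (-1 : ℤ) := by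
    rw [vv_coe, val_sqf e hz hDsq hzD]
  have hlt : WithZero.exp (-1 : ℤ) < (1 : WithZero (Multiplicative ℤ)) := by
    rw [← WithZero.exp_zero, WithZero.exp_lt_exp]; norm_num
  have hphD : ph e hz (em0 e D) ≠ 0 := (map_ne_zero _).2 (em0_ne e hD0)
  have hun : ∀ x : (plc e hz).adicCompletion K, vv (plc e hz) x < 1 →
      vv (plc e hz) x ≤ vv (plc e hz) (ph e hz (em0 e D)) := by
    intro x hx
    rw [hwD]
    by_cases hx0 : vv (plc e hz) x = 0
    · rw [hx0]; exact zero_le
    · rw [← WithZero.exp_log hx0] at hx ⊢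
      rw [← WithZero.exp_zero, WithZero.exp_lt_exp] at hx
      rw [WithZero.exp_le_exp]
      omega
  rcases hB with rfl | rfl
  · exact cls1 (vv (plc e hz)) (fun t ht => hens_odd (plc e hz) h2' t ht)
      hphD (by rw [hwD]; exact hlt) hun hm
  · refine cls2 (vv (plc e hz)) (fun t ht => hens_odd (plc e hz) h2' t ht)
      (i := ph e hz (em0 e im1)) (by rw [← map_pow, Pool.Agent.Y715.Z.im1_sq e, map_neg, map_one])
      hphD (by rw [hwD]; exact hlt) hun (fun g hg => ?_) ?_
    · rw [hwD] at hg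
      exact exp_sq hg
    · rwa [map_neg, map_pow] at hm

/-- the local condition at a prime dividing `D` -/
lemma loc_badG (hP : PP z) {D d d' D' : ZI} (hDsq : Squarefree D) (hzD : z ∣ D)
    {B b w : K} (hB : B = em0 e D ∨ B = -(em0 e D) ^ 2) (hw : w ≠ 0) (hb : b = em0 e d * w ^ 2)
    (h : ∃ y m : (plc e hz).adicCompletion K, y ≠ 0 ∧ ph e hz b * y ^ 2 = m ∧
      S1 0 (ph e hz B) m) :
    (¬ z ∣ d → qr z d = 1) ∧ (Squarefree d → z ∣ d → d * d' = D * D' ^ 2 → ¬ z ∣ d' → qr z d' = 1) := by
  obtain ⟨y, m, hy, hym, hm⟩ := h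
  have hD0 : D ≠ 0 := hDsq.ne_zero
  have hwD : vv (plc e hz) (ph e hz (em0 e D)) = WithZero.exp (-1 : ℤ) := by
    rw [vv_coe, val_sqf e hz hDsq hzD]
  have hphD : ph e hz (em0 e D) ≠ 0 := (map_ne_zero _).2 (em0_ne e hD0)
  obtain ⟨c, hc, hmc⟩ := cls_bad e hz hP hDsq hzD hB hm
  have hpw : ph e hz w ≠ 0 := (map_ne_zero _).2 hw
  have hvy : vv (plc e hz) y ≠ 0 := (Valuation.ne_zero_iff _).2 hy
  have hvc : vv (plc e hz) c ≠ 0 := (Valuation.ne_zero_iff _).2 hc
  have hvw : vv (plc e hz) (ph e hz w) ≠ 0 := (Valuation.ne_zero_iff _).2 hpw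
  have hm2 : ph e hz (em0 e d) * (ph e hz w * y) ^ 2 = m := by
    rw [← hym, hb, map_mul, map_pow]; ring
  constructor
  · intro hzd
    rcases hmc with h1 | h1
    · apply qr_of_sqrt e hz hP hzd (x := c / (ph e hz w * y))
      rw [div_pow, ← h1, ← hm2]
      field_simp
    · exfalso
      have h3 := congrArg (vv (plc e hz)) (hm2.trans h1)
      rw [map_mul, map_mul, vv_coe, val_one e hz hzd, one_mul, map_pow, map_pow, map_mul, hwD] at h3
      apply exp_sq (g := vv (plc e hz) (ph e hz w) * vv (plc e hz) y / vv (plc e hz) c)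
      rw [div_pow, h3]
      field_simp
  · intro hd hzd hdd hzd'
    rcases hmc with h1 | h1
    · exfalso
      have h3 := congrArg (vv (plc e hz)) (hm2.trans h1)
      rw [map_mul, vv_coe, val_sqf e hz hd hzd, map_pow, map_pow, map_mul] at h3
      apply exp_sq (g := vv (plc e hz) c / (vv (plc e hz) (ph e hz w) * vv (plc e hz) y))
      rw [div_pow, ← h3]
      field_simp
    · have hpd : ph e hz (em0 e d) ≠ 0 := (map_ne_zero _).2 (em0_ne e hd.ne_zero)
      apply qr_of_sqrt e hz hP hzd'
        (x := ph e hz (em0 e D') * (ph e hz w * y) / c)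
      have h4 : ph e hz (em0 e d) * ph e hz (em0 e d') =
          ph e hz (em0 e D) * ph e hz (em0 e D') ^ 2 := by
        rw [← map_mul, ← map_mul, hdd, map_mul, map_mul, map_pow, map_pow]
      have h5 : ph e hz (em0 e d) * (ph e hz w * y) ^ 2 = ph e hz (em0 e D) * c ^ 2 := hm2.trans h1
      rw [div_pow, mul_pow]
      rw [div_eq_iff (pow_ne_zero 2 hc)]
      apply mul_left_cancel₀ (mul_ne_zero hphD hpd)
      linear_combination (ph e hz (em0 e D) * ph e hz (em0 e D') ^ 2) * h5 -
        (ph e hz (em0 e D) * c ^ 2) * h4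

end

end Pool.Agent.Q95.GN
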